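import Mathlib
import Pool.Agent.V11217.HyperMore

/-!
The least dimension of a simplicial refinement for an infinite family of polytopes.
-/

namespace Pool.Agent.Results.MP_ff4a33_gt.LeastDimension

open Set Pool.Agent.V11217.Refine Pool.Agent.V11217

/-- The dimensions of the simplices `T` of simplicial refinements `(T, f, g)` of `C`. -/
def RefinementDims {F : Type} [AddCommGroup F] [Module ℝ F] (C : Set F) : Set ℕ :=
  {d | ∃ (E : Type) (_ : AddCommGroup E) (_ : Module ℝ E) (_ : FiniteDimensional ℝ E)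
    (T : Set E) (f : PartialMap T C) (g : PartialMap (Effects T) (Effects C)),
    IsRefinement T C f g ∧ Module.finrank ℝ (vectorSpan ℝ T) = d}

/-- The slice of the cube of dimension `2 l + 1` by the hyperplane on which the coordinates sum
to `l + 1/2`. -/
def Slice (l : ℕ) : Set (Fin (2 * l + 1) → ℝ) :=
  {x | (∀ j, 0 ≤ x j ∧ x j ≤ 1) ∧ ∑ j, x j = l + 1 / 2}

theorem result (l : ℕ) (hl : 1 ≤ l) :
    IsPolytope (Slice l) ∧ ¬ IsSimplex (Slice l) ∧
    ((Slice l).extremePoints ℝ).ncard = (l + 1) * (2 * l + 1).choose l ∧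
    IsLeast (RefinementDims (Slice l)) (2 * (2 * l + 1).choose l - 1) := by
  classical
  have hS : Slice l = Hyper.C l := rfl
  rw [hS]
  refine ⟨Hyper.polytope l, Hyper.not_simplex l hl, Hyper.ncard_extreme l, ?_, ?_⟩
  · obtain ⟨φ, g, h⟩ := Hyper.refinement l
    refine ⟨Hyper.Lo l ⊕ Hyper.Up l → ℝ, inferInstance, inferInstance, inferInstance, Hyper.T l,
      φ, g, h, ?_⟩
    have hpos : 0 < (2 * l + 1).choose l := Nat.choose_pos (by omega)
    obtain ⟨e, he, hT⟩ := stdSimplex_vertices (Hyper.Lo l ⊕ Hyper.Up l)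
      (n := (2 * (2 * l + 1).choose l - 1) + 1) (by rw [Hyper.card_index]; omega)
    exact finrank_simplex he hT
  · rintro d ⟨E, _, _, _, T, φ, g, h, hd⟩
    obtain ⟨n, e, he, hT⟩ := h.1
    have h1 := Hyper.lower_bound hl φ g h hT
    have h2 := finrank_simplex he hT
    omega

end Pool.Agent.Results.MP_ff4a33_gt.LeastDimension
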